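import Mathlib

/-!
Nilmanifolds and nilsequences in several variables.
-/

set_option autoImplicit false

open scoped Manifold ContDiff

namespace Pool.Agent.H65NS

/-- `a` is a basic `k`-step nilsequence in `ℓ` variables, with a continuous function `F`: there are
a (Hausdorff, second countable, real) Lie group `G`, nilpotent of step at most `k`, a discrete
cocompact subgroup `Γ`, elements `b_1, …, b_ℓ` of `G`, a point `z` of `G / Γ` and a continuous
function `F` on `G / Γ` such that `a(n) = F(b_1^{n_1} ⋯ b_ℓ^{n_ℓ} z)` for all `n ∈ ℤ^ℓ`. -/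
def IsBasicNilsequence (k ℓ : ℕ) (a : (Fin ℓ → ℤ) → ℂ) : Prop :=
  ∃ (d : ℕ) (G : Type) (_ : Group G) (_ : TopologicalSpace G) (_ : T2Space G)
    (_ : SecondCountableTopology G) (_ : ChartedSpace (EuclideanSpace ℝ (Fin d)) G)
    (_ : LieGroup (𝓡 d) ∞ G) (_ : Group.IsNilpotent G) (_ : Group.nilpotencyClass G ≤ k)
    (Γ : Subgroup G) (_ : DiscreteTopology Γ) (_ : CompactSpace (G ⧸ Γ))
    (b : Fin ℓ → G) (z : G ⧸ Γ) (F : C(G ⧸ Γ, ℂ)),
    ∀ n : Fin ℓ → ℤ, a n = F ((List.ofFn fun i => b i ^ n i).prod • z)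

/-- A `k`-step nilsequence in `ℓ` variables: a uniform limit of basic ones. -/
def IsNilsequence (k ℓ : ℕ) (a : (Fin ℓ → ℤ) → ℂ) : Prop :=
  ∀ ε : ℝ, 0 < ε → ∃ a', IsBasicNilsequence k ℓ a' ∧ ∀ n, ‖a n - a' n‖ ≤ ε

end Pool.Agent.H65NS
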