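import Pool.Agent.H65NS.Defs

set_option autoImplicit false

open scoped Manifold ContDiff
open MeasureTheory Set

namespace Pool.Agent.H65NS

/-- a multiplicatively independent family in the circle -/
theorem exists_indep (ℓ : ℕ) : ∃ b : Fin ℓ → Circle,
    Function.Injective fun n : Fin ℓ → ℤ => (List.ofFn fun i => b i ^ n i).prod := by
  -- `b i = exp (t^(i+1))`
  have hcount : (⋃ q : (Fin ℓ → ℤ) × ℤ, {t : ℝ | (∑ i, (q.1 i : ℝ) * t ^ (i.1 + 1) = 2 * Real.pi * q.2) ∧
      q.1 ≠ 0}).Countable := by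
    refine countable_iUnion fun q => ?_
    by_cases hq : q.1 = 0
    · convert Set.countable_empty (α := ℝ)
      ext t
      simp [hq]
    · -- roots of a nonzero polynomial
      set p : Polynomial ℝ := (∑ i : Fin ℓ, Polynomial.monomial (i.1 + 1) (q.1 i : ℝ)) -
        Polynomial.C (2 * Real.pi * q.2) with hp
      have hp0 : p ≠ 0 := by
        intro h0
        apply hq
        funext j
        have h1 : p.coeff (j.1 + 1) = (q.1 j : ℝ) := by
          rw [hp, Polynomial.coeff_sub, Polynomial.coeff_C_succ, sub_zero, Polynomial.finsetSum_coeff]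
          rw [Finset.sum_eq_single j]
          · simp
          · intro i _ hij
            rw [Polynomial.coeff_monomial, if_neg]
            intro h
            exact hij (Fin.ext (by omega))
          · simp
        rw [h0] at h1
        simp at h1
        have : (q.1 j : ℝ) = 0 := h1.symm
        exact_mod_cast this
      refine (p.roots.toFinset.finite_toSet.subset ?_).countable
      rintro t ⟨ht, _⟩
      simp only [Finset.mem_coe, Multiset.mem_toFinset, Polynomial.mem_roots hp0, Polynomial.IsRoot.def]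
      rw [hp, Polynomial.eval_sub, Polynomial.eval_finsetSum, Polynomial.eval_C]
      simp only [Polynomial.eval_monomial]
      rw [ht]
      ring
  obtain ⟨t, ht⟩ : ∃ t : ℝ, t ∉ (⋃ q : (Fin ℓ → ℤ) × ℤ,
      {t : ℝ | (∑ i, (q.1 i : ℝ) * t ^ (i.1 + 1) = 2 * Real.pi * q.2) ∧ q.1 ≠ 0}) := by
    by_contra hcon
    push Not at hcon
    exact Set.not_countable_univ (hcount.mono fun x _ => hcon x)
  refine ⟨fun i => Circle.exp (t ^ (i.1 + 1)), ?_⟩
  have hform : ∀ n : Fin ℓ → ℤ, (List.ofFn fun i : Fin ℓ => Circle.exp (t ^ (i.1 + 1)) ^ n i).prod =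
      Circle.exp (∑ i, (n i : ℝ) * t ^ (i.1 + 1)) := by
    intro n
    rw [List.prod_ofFn]
    have h1 : ∀ (s : Finset (Fin ℓ)), Circle.exp (∑ i ∈ s, (n i : ℝ) * t ^ (i.1 + 1)) =
        ∏ i ∈ s, Circle.exp (t ^ (i.1 + 1)) ^ n i := by
      classical
      intro s
      induction s using Finset.induction_on with
      | empty => simp
      | insert a s ha ih =>
        rw [Finset.sum_insert ha, Finset.prod_insert ha, Circle.exp_add, ih]
        congr 1
        have := Circle.exp_zsmul (t ^ (a.1 + 1)) (n a)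
        rw [← this]
        congr 1
        simp
    rw [h1]
  intro n m hnm
  simp only [hform] at hnm
  by_contra hne
  apply ht
  rw [Circle.exp_eq_exp] at hnm
  obtain ⟨k, hk⟩ := hnm
  refine mem_iUnion.2 ⟨(n - m, k), ?_, ?_⟩
  · show ∑ i, (((n - m) i : ℤ) : ℝ) * t ^ (i.1 + 1) = 2 * Real.pi * k
    have : ∑ i, (((n - m) i : ℤ) : ℝ) * t ^ (i.1 + 1) =
        ∑ i, (n i : ℝ) * t ^ (i.1 + 1) - ∑ i, (m i : ℝ) * t ^ (i.1 + 1) := by
      rw [← Finset.sum_sub_distrib]
      refine Finset.sum_congr rfl fun i _ => ?_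
      simp only [Pi.sub_apply]
      push_cast
      ring
    rw [this, hk]
    ring
  · show n - m ≠ 0
    exact sub_ne_zero.2 hne

/-- coefficients of a triangular system -/
noncomputable def coefs {ι : Type} [Encodable ι] (F : ℕ → ι → ℂ) (C : ι → ℂ) (j : ℕ) : ℂ :=
  match Encodable.decode (α := ι) j with
  | none => 0
  | some m => C m - ∑ i : Fin j, coefs F C i * F i m
termination_by j
decreasing_by exact i.2

theorem coefs_spec {ι : Type} [Encodable ι] (F : ℕ → ι → ℂ) (C : ι → ℂ) (m : ι)
    (h1 : F (Encodable.encode m) m = 1) :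
    ∑ j ∈ Finset.range (Encodable.encode m + 1), coefs F C j * F j m = C m := by
  rw [Finset.sum_range_succ, h1, mul_one]
  have h2 : coefs F C (Encodable.encode m) =
      C m - ∑ i : Fin (Encodable.encode m), coefs F C i * F i m := by
    rw [coefs, Encodable.encodek]
  rw [h2, ← Finset.sum_range (fun j => coefs F C j * F j m)]
  ring

instance : Group.IsNilpotent Circle := CommGroup.isNilpotent

/-- the basic nilsequences used below: continuous functions along an orbit of a rotation of the circle -/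
theorem basic_circle {ℓ : ℕ} (b : Fin ℓ → Circle) (F : C(Circle ⧸ (⊥ : Subgroup Circle), ℂ)) :
    IsNilsequence 1 ℓ (fun n => F ((List.ofFn fun i => b i ^ n i).prod •
      ((1 : Circle) : Circle ⧸ (⊥ : Subgroup Circle)))) := by
  intro ε hε
  refine ⟨(fun n => F ((List.ofFn fun i => b i ^ n i).prod •
      ((1 : Circle) : Circle ⧸ (⊥ : Subgroup Circle)))), ⟨1, Circle, inferInstance, inferInstance,
    inferInstance, inferInstance, inferInstance,
    inferInstance, inferInstance, CommGroup.nilpotencyClass_le_one, ⊥, inferInstance, inferInstance,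
    b, ((1 : Circle) : Circle ⧸ (⊥ : Subgroup Circle)), F, fun n => rfl⟩, fun n => ?_⟩
  rw [sub_self, norm_zero]
  exact hε.le

/-- the points `1 / (j + 1)` -/
noncomputable def pt (j : ℕ) : Icc (0 : ℝ) 1 :=
  ⟨1 / ((j : ℝ) + 1), by positivity, by
    rw [div_le_one (by positivity)]
    have : (0 : ℝ) ≤ j := Nat.cast_nonneg j
    linarith⟩

theorem pt_inj : Function.Injective pt := by
  intro i j h
  have h1 : 1 / ((i : ℝ) + 1) = 1 / ((j : ℝ) + 1) := congrArg Subtype.val h
  have h2 : ((i : ℝ) + 1) = ((j : ℝ) + 1) := by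
    rw [one_div, one_div] at h1
    exact inv_injective h1
  have h3 : (i : ℝ) = j := by linarith
  exact_mod_cast h3

/-- the measure `∑ 2^(-j-1) δ_(1/(j+1))` -/
noncomputable def sg : Measure (Icc (0 : ℝ) 1) :=
  Measure.sum fun j : ℕ => ((2 : ENNReal)⁻¹ ^ (j + 1)) • Measure.dirac (pt j)

instance : IsFiniteMeasure sg := by
  constructor
  unfold sg
  rw [Measure.sum_apply _ MeasurableSet.univ]
  simp only [Measure.smul_apply, Measure.dirac_apply_of_mem (mem_univ _), smul_eq_mul, mul_one]
  simp only [pow_succ]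
  rw [ENNReal.tsum_mul_right, ENNReal.tsum_geometric]
  refine ENNReal.mul_lt_top ?_ (by norm_num)
  rw [ENNReal.one_sub_inv_two, inv_inv]
  norm_num

theorem sg_pt (j : ℕ) : sg.real {pt j} = (1 / 2 : ℝ) ^ (j + 1) := by
  unfold Measure.real sg
  rw [Measure.sum_apply _ (measurableSet_singleton _), tsum_eq_single j]
  · rw [Measure.smul_apply, Measure.dirac_apply_of_mem (mem_singleton _), smul_eq_mul, mul_one,
      ENNReal.toReal_pow, ENNReal.toReal_inv]
    norm_num
  · intro i hij
    rw [Measure.smul_apply, Measure.dirac_apply' _ (measurableSet_singleton _), indicator_of_notMem,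
      smul_zero]
    intro h
    exact hij (pt_inj h)

/-- **Every function on `ℤ^ℓ` is an integral of nilsequences.** -/
theorem rep (ℓ : ℕ) (C : (Fin ℓ → ℤ) → ℂ) :
    ∃ (N : Icc (0 : ℝ) 1 → (Fin ℓ → ℤ) → ℂ) (σ : Measure (Icc (0 : ℝ) 1)), IsFiniteMeasure σ ∧
      (∀ y, IsNilsequence 1 ℓ (N y)) ∧ (∀ n, Integrable (fun y => N y n) σ) ∧
      ∀ n, C n = ∫ y, N y n ∂σ := by
  classical
  obtain ⟨b, hb⟩ := exists_indep ℓ
  obtain ⟨x, hx⟩ : ∃ x : (Fin ℓ → ℤ) → Circle ⧸ (⊥ : Subgroup Circle),
      ∀ n, x n = (List.ofFn fun i => b i ^ n i).prod •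
        ((1 : Circle) : Circle ⧸ (⊥ : Subgroup Circle)) := ⟨_, fun n => rfl⟩
  have hxi : Function.Injective x := by
    intro n m h
    apply hb
    rw [hx, hx] at h
    have h1 : (((List.ofFn fun i => b i ^ n i).prod : Circle) : Circle ⧸ (⊥ : Subgroup Circle)) =
        (((List.ofFn fun i => b i ^ m i).prod : Circle) : Circle ⧸ (⊥ : Subgroup Circle)) := by
      have e1 : ∀ g : Circle, g • ((1 : Circle) : Circle ⧸ (⊥ : Subgroup Circle)) =
          ((g : Circle) : Circle ⧸ (⊥ : Subgroup Circle)) := by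
        intro g
        show ((g • (1 : Circle) : Circle) : Circle ⧸ (⊥ : Subgroup Circle)) = _
        rw [smul_eq_mul, mul_one]
      exact (e1 _).symm.trans (h.trans (e1 _))
    rw [QuotientGroup.eq, Subgroup.mem_bot, inv_mul_eq_one] at h1
    exact h1
  let _ : Encodable (Fin ℓ → ℤ) := Encodable.ofCountable _
  have hF : ∀ j : ℕ, ∃ f : C(Circle ⧸ (⊥ : Subgroup Circle), ℝ),
      (∀ m, Encodable.encode m < j → f (x m) = 0) ∧ ∀ m, Encodable.encode m = j → f (x m) = 1 := by
    intro j
    have hfin1 : {m : Fin ℓ → ℤ | Encodable.encode m < j}.Finite :=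
      (Set.finite_Iio j).preimage (Encodable.encode_injective.injOn)
    have hfin2 : {m : Fin ℓ → ℤ | Encodable.encode m = j}.Finite :=
      (Set.finite_singleton j).preimage (Encodable.encode_injective.injOn)
    obtain ⟨f, hf0, hf1, _⟩ := exists_continuous_zero_one_of_isClosed
      (hfin1.image x).isClosed (hfin2.image x).isClosed (by
        rw [Set.disjoint_left]
        rintro _ ⟨m, hm, rfl⟩ ⟨m', hm', he⟩
        have := hxi he
        subst this
        have h1 : Encodable.encode m' < j := hm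
        have h2 : Encodable.encode m' = j := hm'
        omega)
    exact ⟨f, fun m hm => hf0 ⟨m, hm, rfl⟩, fun m hm => hf1 ⟨m, hm, rfl⟩⟩
  choose f hf0 hf1 using hF
  set Φ : ℕ → (Fin ℓ → ℤ) → ℂ := fun j m => ((f j (x m) : ℝ) : ℂ) with hΦ
  set c : ℕ → ℂ := coefs Φ C with hc
  have hspec : ∀ m, ∑ j ∈ Finset.range (Encodable.encode m + 1), c j * Φ j m = C m := fun m =>
    coefs_spec Φ C m (by rw [hΦ]; simp [hf1 _ m rfl])
  set N : Icc (0 : ℝ) 1 → (Fin ℓ → ℤ) → ℂ := fun y n =>
    if h : ∃ j, y = pt j then (2 : ℂ) ^ (h.choose + 1) * c h.choose * Φ h.choose n else 0 with hN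
  have hNpt : ∀ j n, N (pt j) n = (2 : ℂ) ^ (j + 1) * c j * Φ j n := by
    intro j n
    have h : ∃ i, pt j = pt i := ⟨j, rfl⟩
    have h2 : h.choose = j := (pt_inj h.choose_spec).symm
    simp only [hN, dif_pos h]
    rw [h2]
  have hNon : ∀ y n, (∀ j ∈ Finset.range (Encodable.encode n + 1), y ≠ pt j) → N y n = 0 := by
    intro y n h
    by_cases hy : ∃ j, y = pt j
    · obtain ⟨j, rfl⟩ := hy
      rw [hNpt]
      have h1 : Encodable.encode n < j := by
        by_contra hcon
        exact h j (Finset.mem_range.2 (by omega)) rfl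
      simp [hΦ, hf0 j n h1]
    · simp only [hN, dif_neg hy]
  have hdec : ∀ n, (fun y => N y n) = fun y => ∑ j ∈ Finset.range (Encodable.encode n + 1),
      ({pt j} : Set (Icc (0 : ℝ) 1)).indicator (fun _ => N (pt j) n) y := by
    intro n
    funext y
    by_cases hy : ∃ j ∈ Finset.range (Encodable.encode n + 1), y = pt j
    · obtain ⟨j, hj, rfl⟩ := hy
      rw [Finset.sum_eq_single j]
      · simp
      · intro i _ hij
        rw [indicator_of_notMem]
        intro h
        exact hij (pt_inj h).symm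
      · exact fun h => absurd hj h
    · push Not at hy
      rw [hNon y n hy, Finset.sum_eq_zero]
      intro j hj
      rw [indicator_of_notMem]
      exact hy j hj
  have hint : ∀ (j : ℕ) (v : ℂ), Integrable (({pt j} : Set (Icc (0 : ℝ) 1)).indicator (fun _ => v)) sg :=
    fun j v => (integrable_const v).indicator (measurableSet_singleton _)
  refine ⟨N, sg, inferInstance, ?_, ?_, ?_⟩
  · intro y
    by_cases hy : ∃ j, y = pt j
    · obtain ⟨j, rfl⟩ := hy
      have hcont : Continuous fun q : Circle ⧸ (⊥ : Subgroup Circle) =>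
          (2 : ℂ) ^ (j + 1) * c j * ((f j q : ℝ) : ℂ) :=
        continuous_const.mul (Complex.continuous_ofReal.comp (f j).continuous)
      have h := basic_circle b (⟨_, hcont⟩ : C(Circle ⧸ (⊥ : Subgroup Circle), ℂ))
      have h2 : N (pt j) = (fun n => (⟨_, hcont⟩ : C(Circle ⧸ (⊥ : Subgroup Circle), ℂ))
          ((List.ofFn fun i => b i ^ n i).prod • ((1 : Circle) : Circle ⧸ (⊥ : Subgroup Circle)))) := by
        funext n
        rw [hNpt, ← hx]
        rfl
      rw [h2]
      exact h
    · have h := basic_circle b (0 : C(Circle ⧸ (⊥ : Subgroup Circle), ℂ))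
      have h2 : N y = (fun n => (0 : C(Circle ⧸ (⊥ : Subgroup Circle), ℂ))
          ((List.ofFn fun i => b i ^ n i).prod • ((1 : Circle) : Circle ⧸ (⊥ : Subgroup Circle)))) := by
        funext n
        simp only [hN, dif_neg hy]
        rfl
      rw [h2]
      exact h
  · intro n
    rw [hdec n]
    exact integrable_finsetSum _ fun j _ => hint j _
  · intro n
    rw [hdec n, integral_finsetSum _ fun j _ => hint j _, ← hspec n]
    refine Finset.sum_congr rfl fun j _ => ?_
    rw [integral_indicator_const _ (measurableSet_singleton _), sg_pt, hNpt]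
    have h2 : ((1 / 2 : ℝ) ^ (j + 1)) • ((2 : ℂ) ^ (j + 1) * c j * Φ j n) =
        ((1 / 2 : ℂ) ^ (j + 1) * (2 : ℂ) ^ (j + 1)) * (c j * Φ j n) := by
      rw [Complex.real_smul]
      push_cast
      ring
    rw [h2, ← mul_pow]
    norm_num

end Pool.Agent.H65NS
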